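import Pool.Agent.Helper91.TY.Hits
import Pool.Agent.Helper97.CV.Cube

/-!
MP_8ee768_co, project TH-Y', star engine: the keys of the join.

A chunk is `X = pk L N x` (`N` lanes of `L` bits). Two lanes agree if their upper parts `x i >>> h` are equal. The
key of a lane is a multiplicative hash of its upper part, `keyF c s w u = ((u * c) >>> s) &&& (2 ^ w - 1)`.

* `keyR`: the keys of all lanes at once, still at stride `L` (five operations), `keyR_eq`;
* `keyC`: compression of the keys from stride `L` to stride `W` (one division with remainder), `keyC_eq`;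
* `outer_key`: helper91's outer product on the keys of two chunks visits all pairs of lanes whose upper parts
  are equal.
-/

set_option autoImplicit false
set_option exponentiation.threshold 5000

namespace Pool.Agent.Helper38.TY

open Pool.Agent.Helper63.SIMD Pool.Agent.Helper91.TY Pool.Agent.Helper97.CV.Cube

/-- the key of one upper part -/
def keyF (c s w u : ℕ) : ℕ := ((u * c) >>> s) &&& (2 ^ w - 1)

theorem keyF_lt (c s w u : ℕ) : keyF c s w u < 2 ^ w := by
  unfold keyF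
  rw [Nat.and_two_pow_sub_one_eq_mod]
  exact Nat.mod_lt _ (Nat.two_pow_pos w)

/-- keys of all lanes at the stride of the lanes; `LM = (2 ^ (L - h) - 1) * rep L N`,
`KM = (2 ^ w - 1) * rep L N` -/
def keyR (h s c LM KM X : ℕ) : ℕ :=
  Nat.land (Nat.shiftRight (Nat.mul (Nat.land (Nat.shiftRight X h) LM) c) s) KM

theorem keyR_eq {L N h s w c : ℕ} (hL : 0 < L) (hh : h ≤ L) (hs : s ≤ L) (hw : w ≤ L - s)
    (hc : c ≤ 2 ^ h) {x : ℕ → ℕ} (hx : ∀ i < N, x i < 2 ^ L) :
    keyR h s c ((2 ^ (L - h) - 1) * rep L N) ((2 ^ w - 1) * rep L N) (pk L N x) =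
      pk L N (fun i => keyF c s w (x i >>> h)) := by
  have hp := Nat.two_pow_pos (L - h)
  have e1 : (pk L N x >>> h) &&& ((2 ^ (L - h) - 1) * rep L N) = pk L N (fun i => x i >>> h) := by
    rw [mul_rep hL, lane_shr_land hh hx (fun _ _ => by omega)]
    refine pk_congr fun i hi => ?_
    rw [Nat.and_two_pow_sub_one_eq_mod]
    refine Nat.mod_eq_of_lt ?_
    rw [Nat.shiftRight_eq_div_pow]
    refine Nat.div_lt_of_lt_mul ?_
    rw [← pow_add, Nat.add_sub_cancel' hh]
    exact hx i hi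
  show ((((pk L N x >>> h) &&& ((2 ^ (L - h) - 1) * rep L N)) * c) >>> s) &&& ((2 ^ w - 1) * rep L N) = _
  rw [e1, Nat.mul_comm _ c, mul_pk, mul_rep hL, lane_shr_land hs]
  · refine pk_congr fun i _ => ?_
    unfold keyF
    rw [Nat.mul_comm c]
  · intro i hi
    have h1 : x i >>> h < 2 ^ (L - h) := by
      rw [Nat.shiftRight_eq_div_pow]
      refine Nat.div_lt_of_lt_mul ?_
      rw [← pow_add, Nat.add_sub_cancel' hh]
      exact hx i hi
    calc c * (x i >>> h) ≤ 2 ^ h * (x i >>> h) := Nat.mul_le_mul_right _ hc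
      _ < 2 ^ h * 2 ^ (L - h) := Nat.mul_lt_mul_of_pos_left h1 (Nat.two_pow_pos h)
      _ = 2 ^ L := by rw [← pow_add, Nat.add_sub_cancel' hh]
  · intro _ _
    have h2 : 2 ^ w ≤ 2 ^ (L - s) := Nat.pow_le_pow_right (by norm_num) hw
    have h3 := Nat.two_pow_pos w
    omega

/-- compression from stride `L` to stride `W`: `m = 2 ^ L - 2 ^ W` -/
def keyC (m K : ℕ) : ℕ := Nat.mod K m

theorem pk_modEq (L W N : ℕ) (hWL : W ≤ L) (a : ℕ → ℕ) : pk L N a ≡ pk W N a [MOD 2 ^ L - 2 ^ W] := by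
  have hb : 2 ^ L ≡ 2 ^ W [MOD 2 ^ L - 2 ^ W] := by
    have h1 : 2 ^ W ≤ 2 ^ L := Nat.pow_le_pow_right (by norm_num) hWL
    exact ((Nat.modEq_iff_dvd' h1).2 dvd_rfl).symm
  induction N with
  | zero =>
    rw [pk_zero, pk_zero]
  | succ N ih =>
    rw [pk_succ, pk_succ, pow_mul, pow_mul]
    exact ih.add ((hb.pow N).mul_left _)

theorem keyC_eq {W N' : ℕ} (hW : 0 < W) (hN' : 1 < N') {a : ℕ → ℕ}
    (ha : ∀ i < N', a i < 2 ^ (W - 1)) :
    keyC (2 ^ (W * N') - 2 ^ W) (pk (W * N') N' a) = pk W N' a := by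
  have hWL : W ≤ W * N' := Nat.le_mul_of_pos_right W (by omega)
  have h1 : pk W N' a < 2 ^ (W * N') - 2 ^ W := by
    obtain ⟨n, rfl⟩ : ∃ n, N' = n + 1 := ⟨N' - 1, by omega⟩
    have hn : 0 < n := by omega
    rw [pk_succ]
    have h2 : pk W n a < 2 ^ (W * n) := by
      refine pk_lt fun i hi => lt_of_lt_of_le (ha i (by omega)) ?_
      exact Nat.pow_le_pow_right (by norm_num) (Nat.sub_le _ _)
    have h3 := ha n (by omega)
    obtain ⟨w, rfl⟩ : ∃ w, W = w + 1 := ⟨W - 1, by omega⟩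
    rw [Nat.add_sub_cancel] at h3
    have h4 : a n * 2 ^ ((w + 1) * n) ≤ (2 ^ w - 1) * 2 ^ ((w + 1) * n) :=
      Nat.mul_le_mul_right _ (by omega)
    have h5 : (2 ^ w - 1) * 2 ^ ((w + 1) * n) = 2 ^ w * 2 ^ ((w + 1) * n) - 2 ^ ((w + 1) * n) := by
      rw [Nat.sub_mul, Nat.one_mul]
    have h6 : 2 ^ ((w + 1) * (n + 1)) = 2 * (2 ^ w * 2 ^ ((w + 1) * n)) := by
      rw [Nat.mul_succ, pow_add, pow_succ 2 w]
      ring
    have h7 : 2 ^ (w + 1) ≤ 2 ^ w * 2 ^ ((w + 1) * n) := by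
      rw [← pow_add]
      refine Nat.pow_le_pow_right (by norm_num) ?_
      have : w + 1 ≤ (w + 1) * n := Nat.le_mul_of_pos_right _ hn
      omega
    have h8 : 1 * 2 ^ ((w + 1) * n) ≤ 2 ^ w * 2 ^ ((w + 1) * n) :=
      Nat.mul_le_mul_right _ (Nat.two_pow_pos w)
    omega
  show pk (W * N') N' a % (2 ^ (W * N') - 2 ^ W) = pk W N' a
  have h9 := pk_modEq (W * N') W N' hWL a
  unfold Nat.ModEq at h9
  rw [h9, Nat.mod_eq_of_lt h1]

/-- the rows of the outer product from the keys at stride `L = W * N'`, `R = rep W N'` -/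
def rowK (R K : ℕ) : ℕ := Nat.mul K R

/-- the columns of the outer product, `R = rep (W * N') N`, `m = 2 ^ (W * N') - 2 ^ W` -/
def colK (R m K : ℕ) : ℕ := Nat.mul R (keyC m K)

/-- the outer product of the keys of two chunks visits all pairs of lanes that agree -/
theorem outer_key {W N N' h s c : ℕ} (hW : 1 < W) (hN' : 1 < N') (hNN : N * N' < 2 ^ W)
    (hh : h ≤ W * N') (hs : s + (W - 1) ≤ W * N') (hc : c ≤ 2 ^ h) {x y : ℕ → ℕ}
    (hx : ∀ i < N, x i < 2 ^ (W * N')) (hy : ∀ j < N', y j < 2 ^ (W * N'))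
    {P : ℕ → Prop} {f : ℕ → ℕ → (ℕ → Bool) → Bool} (hf : ∀ k, Acc (P k) (f k)) {n H : ℕ} :
    Acc (∀ i < N, ∀ j < N', H.testBit (W * (N' * i + j) + (W - 1)) = true →
        x i >>> h = y j >>> h → P (N' * i + j))
      (outer ((2 ^ (W - 1) - 1) * rep W (N * N')) (W - 1) (2 ^ W - 1) f n H
        (rowK (rep W N') (keyR h s c ((2 ^ (W * N' - h) - 1) * rep (W * N') N)
          ((2 ^ (W - 1) - 1) * rep (W * N') N) (pk (W * N') N x)))
        (colK (rep (W * N') N) (2 ^ (W * N') - 2 ^ W)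
          (keyR h s c ((2 ^ (W * N' - h) - 1) * rep (W * N') N')
          ((2 ^ (W - 1) - 1) * rep (W * N') N') (pk (W * N') N' y)))) := by
  have hL : 0 < W * N' := Nat.mul_pos (by omega) (by omega)
  rw [keyR_eq hL hh (by omega) (by omega) hc hx, keyR_eq hL hh (by omega) (by omega) hc hy]
  unfold rowK colK
  rw [keyC_eq (by omega) hN' (fun i _ => keyF_lt _ _ _ _)]
  intro st co hst
  obtain ⟨h1, h2⟩ := outer_acc (W := W) (N := N) (N' := N') (by omega) (by omega) hNN
    (a := fun i => keyF c s (W - 1) (x i >>> h)) (b := fun j => keyF c s (W - 1) (y j >>> h))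
    (fun i _ => keyF_lt _ _ _ _) (fun j _ => keyF_lt _ _ _ _) hf st co hst
  refine ⟨fun i hi j hj hH hxy => h1 i hi j hj hH ?_, h2⟩
  show keyF c s (W - 1) (x i >>> h) = keyF c s (W - 1) (y j >>> h)
  rw [hxy]

end Pool.Agent.Helper38.TY
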