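import Mathlib
import Pool.Agent.Helper49.TY.FastW

/-!
MP_8ee768_co, project TH-Y', stage A: the callback builder `cbF`, on helper49's fast words. Same decisions as
helper52's `cbA`: the kill test of a match, `eqU`, then the machine M10.
-/

set_option autoImplicit false
set_option exponentiation.threshold 2000000
set_option maxRecDepth 20000

namespace Pool.Agent.Helper38.TY

open Finset
open Pool.Agent.Helper89.CV (OddCover ofMask)
open Pool.Agent.Helper97.CV
open Pool.Agent.Helper97.CV.Kill10 (P1 P2 onS P1_lt P2_lt P1_le P2_le)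
open Pool.Agent.Helper63.SIMD
open Pool.Agent.Helper33.CV
open Pool.Agent.Helper59.TY (spd p2 p3)
open Pool.Agent.Helper55.TY
open Pool.Agent.Helper55.TY.M10
open Pool.Agent.Helper52.TY
open Pool.Agent.Helper52.TY.CbA
open Pool.Agent.Helper97.CV.KilR (kilR kilR_ok resR resR_eq resRunR)
open Pool.Agent.Helper63.TY (Cb Acc Agree)
open Pool.Agent.Helper49.FW

/-- twice the digits of a lane -/
def dg2 (u : ℕ) : ℕ := Nat.mul 2 (Nat.mod (Nat.land u c2b) 2047)

/-- the threshold of a frame and of the lane of `11` -/
def tU (T u : ℕ) : ℕ := Nat.sub T (dg2 u)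

/-- 128 on the pairs -/
def cO7 : ℕ := 0x80000000000000000000000000000000000000000000000000000000000000000000000000000000000000000000000000000000000000000000000000000000000000000000000000000000000000000000000000000000000000000000000000000000000000000000000000000000000000000000000000000000000000008000000000000000000000000000000000000000000000000000000000000000000000000000000000000000000000000000000000000000000000000000000080000000000000000000000000000000000000000000000000000000000000008000000000000000000000000000000080000000000000008000000080008080000000000000000000000000000000000000000000000000000000000000000000000000000000000000000000000000000000000000000000000000000000000000000000000000000000000000000000000000000000000000000000000000000000000000000000000000000000000000000000000000000000000000000080000000000000000000000000000000000000000000000000000000000000000000000000000000000000000000000000000000000000000000000000000000800000000000000000000000000000000000000000000000000000000000000080000000000000000000000000000000800000000000000080000000800080800000000000000000000000000000000000000000000000000000000000000000000000000000000000000000000000000000000000000000000000000000000080000000000000000000000000000000000000000000000000000000000000008000000000000000000000000000000080000000000000008000000080008080000000000000000000000000000000000000000000000000000000000000000080000000000000000000000000000000800000000000000080000000800080800000000000000000000000000000000080000000000000008000000080008080000000000000000080000000800080800000000080008080000080800080000000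

/-- helper97's residues, one shift -/
def resS (AL f : ℕ) : ℕ :=
  (fun y => (fun d => Nat.land y (Nat.sub d (Nat.shiftRight d 6))) (Nat.land y M10.cH))
  (Nat.add (Nat.land (Nat.shiftRight (Nat.mul (Nat.add (Nat.add
    (Nat.land (Nat.add f M10.cT2) cO7) (Nat.land (Nat.add f M10.cT5) cO7))
    (Nat.land (Nat.add f M10.cT8) cO7)) M10.cC1) 4103) M10.cM1) AL)

/-- the kill test -/
def kilS (T AL f : ℕ) : Bool := Nat.ble T (Nat.mod (resS AL f) 255)

/-- the kill test of a match from the word `D` -/
def kS2 (F b T Z u v D : ℕ) : Bool :=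
  kilS (Nat.sub (tU T u) (dg2 v)) (Nat.add D Z) (fD F b u D)

/-- the kill test of a match -/
def kS1 (X F b T Z u v : ℕ) : Bool := kS2 F b T Z u v (dW X u v)

/-- a match which is not killed -/
def svS (F b T Z u v D : ℕ) : Cb := fun s c =>
  frS D (Nat.sub (tU T u) (dg2 v)) fun T' => frS D (Nat.add D Z) fun AL => frS D (fD F b u D) fun f =>
    ite0 (eqU u v) (c s) (mcb (kilR T' AL) (Nat.land D M10.cQ) f s c)

/-- the callback of a frame -/
def matchS (X F b T Z u v : ℕ) : Cb := fun s c =>
  frS F u fun u => frS X v fun v => ite0 (kS1 X F b T Z u v) (svS F b T Z u v (dW X u v) s c) (c s)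

/-- THE CALLBACK BUILDER of stage A -/
def cbF (R h : ℕ) (k : (ℕ → ℕ → Cb) → Bool) : Bool :=
  rootD R fun X F b => frS R (wLow h) fun L => frS R (thrA R L) fun T =>
    frS R (Nat.sub M10.cH L) fun Z => k (matchS X F b T Z)

/-! ### the thresholds -/

theorem dg2_eq (u : ℕ) : dg2 u = 2 * ((u.testBit 0).toNat + 2 * (u.testBit 2047).toNat) := by
  have h := digits_mod u 0
  simp only [Nat.zero_and, Nat.add_zero, Nat.zero_testBit, Bool.toNat_false, Nat.mul_zero] at h
  unfold dg2
  show 2 * ((u &&& c2b) % 2047) = _
  rw [h]

theorem thr_eq (T u v : ℕ) : Nat.sub (tU T u) (dg2 v) = thrM T u v := by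
  have h : thrM T u v = T - 2 * (((u &&& c2b) + (v &&& c2b)) % 2047) := rfl
  have h2 : Nat.sub (tU T u) (dg2 v) = T - dg2 u - dg2 v := rfl
  rw [h, h2, digits_mod, dg2_eq, dg2_eq, Nat.mul_add 2 (_ + _), Nat.sub_add_eq]

/-! ### the kill test with one shift -/

theorem cO7_eq : cO7 = 2 ^ 7 * M10.cO2 := by decide +kernel

theorem land_cO7 (x : ℕ) : x &&& cO7 = 2 ^ 7 * ((x >>> 7) &&& M10.cO2) := by
  rw [cO7_eq]
  refine Nat.eq_of_testBit_eq fun i => ?_
  rw [Nat.testBit_and, Nat.testBit_two_pow_mul, Nat.testBit_two_pow_mul, Nat.testBit_and,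
    Nat.testBit_shiftRight]
  by_cases hi : 7 ≤ i
  · rw [decide_eq_true (show i ≥ 7 from hi), Bool.true_and, Bool.true_and,
      show 7 + (i - 7) = i by omega]
  · rw [decide_eq_false (show ¬ i ≥ 7 from hi), Bool.false_and, Bool.false_and, Bool.and_false]

theorem shr_4103 (x : ℕ) : (2 ^ 7 * x) >>> 4103 = x >>> 4096 := by
  rw [show (4103 : ℕ) = 7 + 4096 from rfl, Nat.shiftRight_add, Nat.shiftRight_eq_div_pow (2 ^ 7 * x) 7,
    Nat.mul_div_cancel_left _ (by norm_num)]

theorem resS_eq (AL f : ℕ) : resS AL f = resR AL f := by
  have h1 : resS AL f = (fun y => (fun d => y &&& (d - (d >>> 6))) (y &&& M10.cH))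
    ((((((f + M10.cT2) &&& cO7) + ((f + M10.cT5) &&& cO7) + ((f + M10.cT8) &&& cO7)) * M10.cC1)
      >>> 4103 &&& M10.cM1) + AL) := rfl
  have h2 : resR AL f = (fun y => (fun d => y &&& (d - (d >>> 6))) (y &&& M10.cH))
    (((((((f + M10.cT2) >>> 7) &&& M10.cO2) + (((f + M10.cT5) >>> 7) &&& M10.cO2) +
      (((f + M10.cT8) >>> 7) &&& M10.cO2)) * M10.cC1) >>> 4096 &&& M10.cM1) + AL) := rfl
  rw [h1, h2, land_cO7, land_cO7, land_cO7, ← Nat.mul_add, ← Nat.mul_add, Nat.mul_assoc, shr_4103]

theorem kilS_eq (T AL f : ℕ) : kilS T AL f = kilR T AL f := by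
  unfold kilS kilR
  rw [resS_eq]

/-! ### the law -/

theorem matchS_eq (X F b T Z u v s : ℕ) (c : ℕ → Bool) :
    matchS X F b T Z u v s c =
      ite0 (kilR (thrM T u v) (dW X u v + Z) (fD F b u (dW X u v)))
        (ite0 (eqU u v) (c s)
          (mcb (kilR (thrM T u v) (dW X u v + Z)) (Nat.land (dW X u v) M10.cQ)
            (fD F b u (dW X u v)) s c))
        (c s) := by
  unfold matchS kS1 kS2 svS
  simp only [frS_eq, kilS_eq, thr_eq]
  rfl

/-- **soundness of the callback of stage A** -/
theorem cbFLaw (D : Fam') (h : ℕ) : CbLaw cbF D h := by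
  intro R hR k hk
  unfold cbF at hk
  rw [rootD_eq] at hk
  simp only [frS_eq] at hk
  refine ⟨_, hk, fun u v s c hs => ?_⟩
  have key : ∀ B, HA D h B → cub 11 (LYL B) = u → cub 11 (LZL B) = v →
      Start (kilR (thrM (thrA R (wLow h)) u v) (dW (rootX R) u v + (M10.cH - wLow h)))
        (Nat.land (dW (rootX R) u v) M10.cQ) (fD (rootF R) (rootb R) u (dW (rootX R) u v)) B := by
    intro B hB hu hv
    have hBo := hB.best.odd
    have hRt : IsRoot B R := by
      unfold IsRoot
      rw [hB.root]
      exact hR
    have hb := bits_of_lanes hBo hRt hu hv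
    refine ⟨hBo, ?_, par_fast hb, pair_fast hb hBo⟩
    have e : dW (rootX R) u v + (M10.cH - wLow h) =
        pk 8 1024 (dgt R u v) + pk 8 1024 (fun r => onS P1 128 r - lowA h r) := by
      rw [← sub_wLow, dW_eq]
    rw [e]
    refine kilR_ok hBo hB.best.le (fun r => (dgt_le R u v r).trans (by norm_num)) (lowA_le h)
      (fun z _ => lowA_even h _) (fun z hz => off_fast hb hz) ?_
      (thr_ok hBo hRt hu hv hB.c6 hB.y6 hB.z6)
    intro z hz
    rw [lowA_pow hz]
    cases hb : h.testBit z.val with
    | false => simp
    | true => simpa using hB.low z hz hb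
  rw [matchS_eq] at hs
  have e2 : Nat.sub M10.cH (wLow h) = M10.cH - wLow h := rfl
  rw [e2] at hs
  generalize hK : kilR (thrM (thrA R (wLow h)) u v)
      (dW (rootX R) u v + (M10.cH - wLow h)) = K at hs key
  generalize hP : fD (rootF R) (rootb R) u (dW (rootX R) u v) = P at hs key
  cases hkl : K P with
  | true =>
    rw [hkl, ite0_true] at hs
    refine ⟨fun _ B hB hu hv => ?_, s, hs⟩
    rw [(key B hB hu hv).kill_eq] at hkl
    exact Bool.false_ne_true hkl
  | false =>
    rw [hkl, ite0_false] at hs
    cases hag : eqU u v with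
    | false =>
      rw [hag, ite0_false] at hs
      refine ⟨fun h1 => ?_, s, hs⟩
      rw [eqU_of_agree h1] at hag
      exact absurd hag (by decide)
    | true =>
      rw [hag, ite0_true] at hs
      obtain ⟨h1, h2⟩ := acc_mcb (C := fun B => HA D h B ∧ cub 11 (LYL B) = u ∧
        cub 11 (LZL B) = v) (fun B hB => key B hB.1 hB.2.1 hB.2.2) s c hs
      exact ⟨fun _ B hB hu hv => h1 B ⟨hB, hu, hv⟩, h2⟩

end Pool.Agent.Helper38.TY
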