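import Pool.Agent.Helper91.TY.CRun

/-!
MP_8ee768_co, project TH-Y': `runC` of helper91 with canonical digits: the two points of an exchange are
evaluated first (`Nat.succ` of a literal), so that the masks `ib K i` and their combinations are the same terms
for all words and the kernel computes each of them once per declaration. The masks of the groups (`K = 2 ^ 20`) are
computed by doubling (`ibD`).
-/

set_option autoImplicit false

namespace Pool.Agent.Helper38.TY

open Pool.Agent.Helper91.TY (cswap cstep ib dig8 frc frc_eq runC)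

/-- `n` doublings of `x`, the first shift is `w` -/
noncomputable def dbl (n : ℕ) : ℕ → ℕ → ℕ :=
  @Nat.rec (fun _ => ℕ → ℕ → ℕ) (fun _ x => x)
    (fun _ ih w x => ih (Nat.mul 2 w) (Nat.lor x (Nat.shiftLeft x w))) n

/-- the mask `ib 1048576 i`, `i ≤ 11` -/
noncomputable def ibQ (i : ℕ) : ℕ :=
  dbl (Nat.sub 19 i) (Nat.pow 2 (Nat.succ i))
    (Nat.shiftLeft (Nat.sub (Nat.pow 2 (Nat.pow 2 i)) 1) (Nat.pow 2 i))

theorem ibQ_eq : ∀ i < 12, ibQ i = ib 1048576 i := by decide +kernel

/-- the mask, fast for `K = 1048576` -/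
noncomputable def ibD (K i : ℕ) : ℕ :=
  @Bool.rec (fun _ => ℕ) (ib K i)
    (@Bool.rec (fun _ => ℕ) (ib K i) (ibQ i) (Nat.ble i 11)) (Nat.beq K 1048576)

theorem ibD_eq (K i : ℕ) : ibD K i = ib K i := by
  unfold ibD
  cases h : Nat.beq K 1048576 with
  | false => rfl
  | true =>
    cases h' : Nat.ble i 11 with
    | false => rfl
    | true =>
      rw [Nat.eq_of_beq_eq_true h]
      exact ibQ_eq i (Nat.lt_succ_of_le (Nat.le_of_ble_eq_true h'))

/-- one exchange with canonical digits -/
noncomputable def cstepD (K d X : ℕ) : ℕ :=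
  frc (fun i => frc (fun j => cswap i j (ibD K i) (ibD K j) X) (Nat.div d 16)) (Nat.mod d 16)

theorem cstepD_eq (K d X : ℕ) : cstepD K d X = cstep K d X := by
  unfold cstepD
  rw [frc_eq, frc_eq, ibD_eq, ibD_eq]
  rfl

/-- a word of exchanges with canonical digits -/
noncomputable def runD (K len w X : ℕ) : ℕ :=
  @Nat.rec (fun _ => ℕ) X (fun t ih => frc (fun d => cstepD K d ih) (dig8 w t)) len

theorem runD_eq (K len w X : ℕ) : runD K len w X = runC K len w X := by
  induction len with
  | zero => rfl
  | succ t ih =>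
    show frc (fun d => cstepD K d (runD K t w X)) (dig8 w t) =
      frc (fun d => cstep K d (runC K t w X)) (dig8 w t)
    rw [frc_eq, frc_eq, cstepD_eq, ih]

end Pool.Agent.Helper38.TY
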