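import Pool.Agent.Helper38.TY.Eng
import Pool.Agent.Helper38.TY.RunD
import Pool.Agent.Helper52.TY.Expand
import Pool.Agent.Helper91.TY.CRun

/-!
MP_8ee768_co, project TH-Y', stage A (and E, B1): the kernel function of one centre.

The centre is the point `12` with link `fam 12 4 r`; its positions `p < 12` of excess at least one are given by
records `(p, t, word)`: the row of type `t` (chunks of 64 dense lanes) is expanded to cube lanes, up to 8
chunks are joined to one number (a group), the word takes the row frame to the base frame of `p` (the points `p` and `11` exchanged),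
two short words take the lists of `p < q` to the pair frame `12, 11, 10`, then the lists are cut into chunks of 64
lanes for the star engine of helper63.

Record code `C`: low 4 bits = number of records, then records of 112 bits, lowest first: `p` (4 bits), length of
the word (4 bits), `t` (16 bits), word (88 bits).

Small numbers go through `frS`; `frS_eq` removes it in proofs. Big numbers are not forced (a forced number
costs two copies): they are closed terms, which the kernel evaluates once.
-/

set_option autoImplicit false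
set_option exponentiation.threshold 2000000

namespace Pool.Agent.Helper38.TY

open Pool.Agent.Helper63.SIMD
open Pool.Agent.Helper63.TY (Cb)
open Pool.Agent.Helper52.TY (expandC)
open Pool.Agent.Helper91.TY (runC)

/-- the successor with a salt for the cache of the kernel -/
def sc (_k a : ℕ) : ℕ := Nat.succ a

/-- evaluation of the argument `v` with the salt `k` -/
def frS (k v : ℕ) (f : ℕ → Bool) : Bool := @Nat.rec (fun _ => Bool) (f 0) (fun m _ => f (sc k m)) v

theorem frS_eq (k v : ℕ) (f : ℕ → Bool) : frS k v f = f v := by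
  cases v <;> rfl

/-- if-then-else on a computed bit, `false` first -/
def ite0 {α : Type} (b : Bool) (x y : α) : α := @Bool.rec (fun _ => α) x y b

theorem ite0_false {α : Type} (x y : α) : ite0 false x y = x := rfl
theorem ite0_true {α : Type} (x y : α) : ite0 true x y = y := rfl

/-- the lanes of a group: `2048 * 512` -/
def KL : ℕ := 1048576

/-- the first `n` chunks of the row as one number -/
noncomputable def catN (n : ℕ) : List ℕ → ℕ :=
  @Nat.rec (fun _ => List ℕ → ℕ) (fun _ => 0)
    (fun _ ih l => @List.rec ℕ (fun _ => ℕ) 0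
      (fun x t _ => Nat.lor (expandC x) (Nat.shiftLeft (ih t) 131072)) l) n

theorem catN_zero (l : List ℕ) : catN 0 l = 0 := rfl
theorem catN_nil (n : ℕ) : catN (n + 1) [] = 0 := rfl
theorem catN_cons (n x : ℕ) (l : List ℕ) :
    catN (n + 1) (x :: l) = Nat.lor (expandC x) (Nat.shiftLeft (catN n l) 131072) := rfl

/-- the row without its first `n` chunks -/
noncomputable def dropN (n : ℕ) : List ℕ → List ℕ :=
  @Nat.rec (fun _ => List ℕ → List ℕ) (fun l => l)
    (fun _ ih l => ih (@List.rec ℕ (fun _ => List ℕ) [] (fun _ t _ => t) l)) n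

theorem dropN_zero (l : List ℕ) : dropN 0 l = l := rfl
theorem dropN_nil (n : ℕ) : dropN (n + 1) [] = dropN n [] := rfl
theorem dropN_cons (n x : ℕ) (l : List ℕ) : dropN (n + 1) (x :: l) = dropN n l := rfl

theorem dropN_eq (n : ℕ) (l : List ℕ) : dropN n l = l.drop n := by
  induction n generalizing l with
  | zero => rfl
  | succ n ih =>
    cases l with
    | nil => rw [dropN_nil, ih]; simp
    | cons x l => rw [dropN_cons, ih, List.drop_succ_cons]

/-- the chunks `0, .., n - 1` of 64 lanes of the number `Y`; `M = 2 ^ 131072 - 1` -/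
noncomputable def cutL (M n Y : ℕ) : List ℕ :=
  @Nat.rec (fun _ => List ℕ) []
    (fun i ih => List.cons (Nat.land (Nat.shiftRight Y (Nat.mul 131072 i)) M) ih) n

theorem cutL_zero (M Y : ℕ) : cutL M 0 Y = [] := rfl
theorem cutL_succ (M n Y : ℕ) : cutL M (n + 1) Y =
    Nat.land (Nat.shiftRight Y (Nat.mul 131072 n)) M :: cutL M n Y := rfl

/-- the junk lane: the masks `2047 - 2 ^ j` of weight 10; invariant under all exchanges, its key is not zero -/
def jl : ℕ :=
  2 ^ 2046 + 2 ^ 2045 + 2 ^ 2043 + 2 ^ 2039 + 2 ^ 2031 + 2 ^ 2015 + 2 ^ 1983 + 2 ^ 1919 + 2 ^ 1791 +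
    2 ^ 1535 + 2 ^ 1023

/-- the junk lane in 512 lanes -/
def JR : ℕ := jl * rep 2048 512

/-- the same number by doubling -/
noncomputable def JRD : ℕ := dbl 9 2048 jl

theorem JRD_eq : JRD = JR := by
  have h : Nat.beq JRD JR = true := by decide +kernel
  exact Nat.eq_of_beq_eq_true h

/-- junk on the lanes `N, .., 64 n - 1` -/
def padN (N n X : ℕ) : ℕ :=
  Nat.lor X (Nat.shiftLeft (Nat.shiftRight
    (Nat.land JR (Nat.sub (Nat.pow 2 (Nat.mul 131072 n)) 1)) (Nat.mul 2048 N)) (Nat.mul 2048 N))

/-- the same with `JRD` -/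
noncomputable def padD (N n X : ℕ) : ℕ :=
  Nat.lor X (Nat.shiftLeft (Nat.shiftRight
    (Nat.land JRD (Nat.sub (Nat.pow 2 (Nat.mul 131072 n)) 1)) (Nat.mul 2048 N)) (Nat.mul 2048 N))

theorem padD_eq (N n X : ℕ) : padD N n X = padN N n X := by
  unfold padD padN
  rw [JRD_eq]

/-! ## Records -/

def rP (C : ℕ) : ℕ := Nat.land C 15
def rLen (C : ℕ) : ℕ := Nat.land (Nat.shiftRight C 4) 15
def rT (C : ℕ) : ℕ := Nat.land (Nat.shiftRight C 8) 65535
def rW (C : ℕ) : ℕ := Nat.land (Nat.shiftRight C 24) 309485009821345068724781055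

/-- a group (at most 512 lanes) of a list in the base frame of its position: position, number of chunks, lanes,
lanes with junk -/
structure Ent where
  p : ℕ
  n : ℕ
  X : ℕ
  Y : ℕ

/-- the number of lanes of the next group -/
def mn (N : ℕ) : ℕ := ite0 (Nat.ble N 512) 512 N

theorem mn_eq (N : ℕ) : mn N = min N 512 := by
  unfold mn
  cases h : Nat.ble N 512 with
  | false =>
    rw [ite0_false, min_eq_right]
    rw [← Bool.not_eq_true, Nat.ble_eq] at h
    omega
  | true =>
    rw [ite0_true, min_eq_left]
    exact Nat.le_of_ble_eq_true h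

/-- the next group of a list -/
noncomputable def entF (p len w N : ℕ) (l : List ℕ) : Ent :=
  ⟨p, (mn N + 63) / 64, runC KL len w (catN ((mn N + 63) / 64) l),
    padN (mn N) ((mn N + 63) / 64) (runC KL len w (catN ((mn N + 63) / 64) l))⟩

/-- the next group, in continuation form -/
noncomputable def entK (C p len w N : ℕ) (l : List ℕ) (k : Ent → Bool) : Bool :=
  frS C (mn N) fun N' => frS C (Nat.div (Nat.add N' 63) 64) fun n =>
    (fun X => k ⟨p, n, X, padD N' n X⟩) (runD KL len w (catN n l))

theorem entK_eq (C p len w N : ℕ) (l : List ℕ) (k : Ent → Bool) :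
    entK C p len w N l k = k (entF p len w N l) := by
  unfold entK
  simp only [frS_eq, runD_eq, padD_eq]
  rfl

/-- `g` groups of a list with `N` lanes, before the entries `L` -/
noncomputable def grpF (p len w : ℕ) (L : List Ent) : ℕ → ℕ → List ℕ → List Ent
  | 0, _, _ => L
  | g + 1, N, l => entF p len w N l :: grpF p len w L g (N - 512) (dropN 8 l)

/-- one record: its groups and then the entries `L` -/
noncomputable def recF (row : ℕ → List ℕ) (nl : ℕ → ℕ) (C : ℕ) (L : List Ent) : List Ent :=
  grpF (rP C) (rLen C) (rW C) L ((nl (rT C) + 511) / 512) (nl (rT C)) (row (rT C))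

/-- all records: the entries -/
noncomputable def entsF (row : ℕ → List ℕ) (nl : ℕ → ℕ) : ℕ → ℕ → List Ent
  | 0, _ => []
  | n + 1, C => recF row nl C (entsF row nl n (C >>> 112))

/-- all records: the mask of the positions -/
def maskF : ℕ → ℕ → ℕ
  | 0, _ => 0
  | n + 1, C => 2 ^ rP C ||| maskF n (C >>> 112)

/-- the groups of a list are put in front of `L`, in continuation form -/
noncomputable def grK (C p len w : ℕ) (g : ℕ) : ℕ → List ℕ → (List Ent → Bool) → List Ent → Bool :=
  @Nat.rec (fun _ => ℕ → List ℕ → (List Ent → Bool) → List Ent → Bool) (fun _ _ k L => k L)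
    (fun _ ih N l k L => entK C p len w N l fun e =>
      frS C (Nat.sub N 512) fun N' => ih N' (dropN 8 l) (fun L' => k (e :: L')) L) g

theorem grK_eq (C p len w g N : ℕ) (l : List ℕ) (k : List Ent → Bool) (L : List Ent) :
    grK C p len w g N l k L = k (grpF p len w L g N l) := by
  induction g generalizing N l k with
  | zero => rfl
  | succ g ih =>
    show (entK C p len w N l fun e => frS C (Nat.sub N 512) fun N' =>
      grK C p len w g N' (dropN 8 l) (fun L' => k (e :: L')) L) = _
    rw [entK_eq, frS_eq, ih]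
    rfl

/-- all records, in continuation form -/
noncomputable def entsK (row : ℕ → List ℕ) (nl : ℕ → ℕ) (n : ℕ) : ℕ → (ℕ → List Ent → Bool) → Bool :=
  @Nat.rec (fun _ => ℕ → (ℕ → List Ent → Bool) → Bool) (fun _ k => k 0 [])
    (fun _ ih C k => frS C (Nat.shiftRight C 112) fun C' => ih C' fun m L =>
      frS C (rP C) fun p => frS C (Nat.lor (Nat.pow 2 p) m) fun m' =>
        frS C (rT C) fun t => frS C (nl t) fun N => frS C (Nat.div (Nat.add N 511) 512) fun g =>
          frS C (rLen C) fun len => frS C (rW C) fun w =>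
            grK C p len w g N (row t) (fun L' => k m' L') L) n

theorem entsK_eq (row : ℕ → List ℕ) (nl : ℕ → ℕ) (n C : ℕ) (k : ℕ → List Ent → Bool) :
    entsK row nl n C k = k (maskF n C) (entsF row nl n C) := by
  induction n generalizing C k with
  | zero => rfl
  | succ n ih =>
    show (frS C (Nat.shiftRight C 112) fun C' => entsK row nl n C' fun m L =>
      frS C (rP C) fun p => frS C (Nat.lor (Nat.pow 2 p) m) fun m' =>
        frS C (rT C) fun t => frS C (nl t) fun N => frS C (Nat.div (Nat.add N 511) 512) fun g =>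
          frS C (rLen C) fun len => frS C (rW C) fun w =>
            grK C p len w g N (row t) (fun L' => k m' L') L) = _
    rw [frS_eq, ih]
    simp only [frS_eq]
    rw [grK_eq]
    rfl

/-! ## Pair frames -/

/-- the label of `q` in the base frame of `p < q` -/
def zl (p q : ℕ) : ℕ := ite0 (Nat.beq q 11) q p

/-- letters of the list of `p` -/
def lenY (z : ℕ) : ℕ := ite0 (Nat.beq z 10) 1 0
def wY (z : ℕ) : ℕ := Nat.add z 160

/-- letters of the list of `q` -/
def lenZ (p q : ℕ) : ℕ := ite0 (Nat.beq p 10) (ite0 (Nat.ble q 9) 1 2) 0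
def wZ (p q : ℕ) : ℕ := Nat.add (Nat.add p 160) (Nat.mul 256 (Nat.add p (Nat.mul 16 q)))

/-- letters of the root cube (12 points) -/
def lenR (z : ℕ) : ℕ := Nat.succ (lenY z)
def wR (p z : ℕ) : ℕ := Nat.add (Nat.add p 176) (Nat.mul 256 (wY z))

/-- the mask, in the pair frame, of the positions before `q` other than `p` -/
def hm (m p q : ℕ) : ℕ :=
  (fun h => ite0 (Nat.beq q 11) h (ite0 (Nat.beq (Nat.land h 1024) 0)
    (Nat.add (Nat.sub h 1024) (Nat.pow 2 p)) h))
    (Nat.sub (Nat.land m (Nat.sub (Nat.pow 2 q) 1)) (Nat.pow 2 p))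

/-! ## The centre -/

/-- one pair; `cbK R h k` prepares the callback for the root cube `R` (4096 bits, pair frame) and the mask `h` of
the heavy points, and calls `k` with it -/
noncomputable def pairK (cbK : ℕ → ℕ → ((ℕ → ℕ → Cb) → Bool) → Bool) (M R m : ℕ) (a b : Ent) : Cb := fun s c =>
  frS a.X (zl a.p b.p) fun z => frS z (lenY z) fun ly => frS z (wY z) fun wy =>
    frS z (lenZ a.p b.p) fun lz => frS z (wZ a.p b.p) fun wz =>
      frS a.X (runD 4096 (lenR z) (wR a.p z) R) fun R' => frS a.X (hm m a.p b.p) fun h =>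
        cbK R' h fun cb => (fun Y Z => eng cb (cutL M a.n Y) (cutL M b.n Z) s c)
          (runD KL ly wy a.Y) (runD KL lz wz b.X)

/-- two groups: nothing to do if they belong to the same position -/
noncomputable def prK (cbK : ℕ → ℕ → ((ℕ → ℕ → Cb) → Bool) → Bool) (M R m : ℕ) (a b : Ent) : Cb := fun s c =>
  ite0 (Nat.beq a.p b.p) (pairK cbK M R m a b s c) (c s)

/-- all pairs of a list -/
noncomputable def pairsK (f : Ent → Ent → Cb) (l : List Ent) : Cb :=
  @List.rec Ent (fun _ => Cb) (fun s c => c s)
    (fun a l ih s c => Pool.Agent.Helper63.TY.loopL (f a) l s fun s' => ih s' c) l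

theorem pairsK_nil (f : Ent → Ent → Cb) (s : ℕ) (c : ℕ → Bool) : pairsK f [] s c = c s := rfl
theorem pairsK_cons (f : Ent → Ent → Cb) (a : Ent) (l : List Ent) (s : ℕ) (c : ℕ → Bool) :
    pairsK f (a :: l) s c = Pool.Agent.Helper63.TY.loopL (f a) l s fun s' => pairsK f l s' c := rfl

/-- THE CENTRE: `v` = code of the centre (495 bits) and its zero set (12 bits, at 495), `R` = its cube -/
noncomputable def cenK (row : ℕ → List ℕ) (nl : ℕ → ℕ) (cbK : ℕ → ℕ → ((ℕ → ℕ → Cb) → Bool) → Bool)
    (v R C : ℕ) : Cb := fun s c =>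
  frS C (Nat.sub (Nat.pow 2 131072) 1) fun M =>
    frS C R fun R => frS C (Nat.land C 15) fun n => frS C (Nat.shiftRight C 4) fun C' =>
      entsK row nl n C' fun m l =>
        ite0 (Nat.beq m (Nat.xor 4095 (Nat.shiftRight v 495))) false
          (pairsK (prK cbK M R m) l s c)

/-- the centre without the forced evaluations -/
noncomputable def cenF (row : ℕ → List ℕ) (nl : ℕ → ℕ) (cbK : ℕ → ℕ → ((ℕ → ℕ → Cb) → Bool) → Bool)
    (v R C : ℕ) : Cb := fun s c =>
  ite0 (Nat.beq (maskF (Nat.land C 15) (C >>> 4)) (Nat.xor 4095 (Nat.shiftRight v 495))) false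
    (pairsK (prK cbK (2 ^ 131072 - 1) R (maskF (Nat.land C 15) (C >>> 4)))
      (entsF row nl (Nat.land C 15) (C >>> 4)) s c)

theorem cenK_eq (row : ℕ → List ℕ) (nl : ℕ → ℕ) (cbK : ℕ → ℕ → ((ℕ → ℕ → Cb) → Bool) → Bool)
    (v R C s : ℕ) (c : ℕ → Bool) : cenK row nl cbK v R C s c = cenF row nl cbK v R C s c := by
  unfold cenK
  simp only [frS_eq]
  rw [entsK_eq]
  rfl

end Pool.Agent.Helper38.TY
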