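import Mathlib
import Pool.Agent.Helper52.TY.CentreA

/-!
MP_8ee768_co, project TH-Y', stage A: a centre in several parts.

`S` is a selection: the bits `8 * (12 * p + q) + k`, `k < 8`, are the chunks `k` of the groups of the position `p`
that are joined with all groups of `q` in this part. The parts of a centre together must select everything
(`coverS`), see `cenA_of_parts`.
-/

set_option autoImplicit false
set_option exponentiation.threshold 2000000

namespace Pool.Agent.Helper38.TY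

open Finset
open Pool.Agent.Helper89.CV (OddCover ofMask)
open Pool.Agent.Helper97.CV
open Pool.Agent.Helper79.CV
open Pool.Agent.Helper33.CV
open Pool.Agent.Helper82.TY (below Lay)
open Pool.Agent.Helper63.SIMD (fld)
open Pool.Agent.Helper63.TY (Cb Acc Agree)
open Pool.Agent.Helper91.TY (runC Good RowsOK recsChk root_letters inL_cutL lyl_letters lzl_letters
  ents_pair ite0_and fld_runC wY_perm KL_eq cutK fld_cutK)
open Pool.Agent.Helper52.TY

/-- the chunks `i < n` of `Y` with the bit `i` of `S` -/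
noncomputable def cutS (M S n Y : ℕ) : List ℕ :=
  @Nat.rec (fun _ => List ℕ) []
    (fun i ih => ite0 (Nat.beq (Nat.land (Nat.shiftRight S i) 1) 1) ih
      (List.cons (Nat.land (Nat.shiftRight Y (Nat.mul 131072 i)) M) ih)) n

theorem cutS_zero (M S Y : ℕ) : cutS M S 0 Y = [] := rfl
theorem cutS_succ (M S n Y : ℕ) : cutS M S (n + 1) Y =
    ite0 (Nat.beq (Nat.land (Nat.shiftRight S n) 1) 1) (cutS M S n Y)
      (Nat.land (Nat.shiftRight Y (Nat.mul 131072 n)) M :: cutS M S n Y) := rfl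

/-- the selected chunks of the pair `p, q` -/
def selS (S p q : ℕ) : ℕ := Nat.land (Nat.shiftRight S (Nat.mul 8 (Nat.add (Nat.mul 12 p) q))) 255

/-- one pair of groups, only the chunks of `S` -/
noncomputable def pairS (cbK : ℕ → ℕ → ((ℕ → ℕ → Cb) → Bool) → Bool) (M R m S : ℕ) (a b : Ent) : Cb :=
  fun s c =>
  frS a.X (zl a.p b.p) fun z => frS z (lenY z) fun ly => frS z (wY z) fun wy =>
    frS z (lenZ a.p b.p) fun lz => frS z (wZ a.p b.p) fun wz =>
      frS a.X (runD 4096 (lenR z) (wR a.p z) R) fun R' => frS a.X (hm m a.p b.p) fun h =>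
        cbK R' h fun cb => (fun Y Z => eng cb (cutS M S a.n Y) (cutL M b.n Z) s c)
          (runD KL ly wy a.Y) (runD KL lz wz b.X)

/-- two groups in a part -/
noncomputable def prP (cbK : ℕ → ℕ → ((ℕ → ℕ → Cb) → Bool) → Bool) (M R m S : ℕ) (a b : Ent) : Cb :=
  fun s c => ite0 (Nat.beq a.p b.p)
    (frS a.X (selS S a.p b.p) fun S' => ite0 (Nat.beq S' 0) (pairS cbK M R m S' a b s c) (c s)) (c s)

/-- THE PART `S` OF A CENTRE -/
noncomputable def cenS (row : ℕ → List ℕ) (nl : ℕ → ℕ) (cbK : ℕ → ℕ → ((ℕ → ℕ → Cb) → Bool) → Bool)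
    (v R C S : ℕ) : Cb := fun s c =>
  frS C (Nat.sub (Nat.pow 2 131072) 1) fun M =>
    frS C R fun R => frS C (Nat.land C 15) fun n => frS C (Nat.shiftRight C 4) fun C' =>
      entsK row nl n C' fun m l =>
        ite0 (Nat.beq m (Nat.xor 4095 (Nat.shiftRight v 495))) false
          (pairsK (prP cbK M R m S) l s c)

/-- the part without the forced evaluations -/
noncomputable def cenSF (row : ℕ → List ℕ) (nl : ℕ → ℕ) (cbK : ℕ → ℕ → ((ℕ → ℕ → Cb) → Bool) → Bool)
    (v R C S : ℕ) : Cb := fun s c =>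
  ite0 (Nat.beq (maskF (Nat.land C 15) (C >>> 4)) (Nat.xor 4095 (Nat.shiftRight v 495))) false
    (pairsK (prP cbK (2 ^ 131072 - 1) R (maskF (Nat.land C 15) (C >>> 4)) S)
      (entsF row nl (Nat.land C 15) (C >>> 4)) s c)

theorem cenS_eq (row : ℕ → List ℕ) (nl : ℕ → ℕ) (cbK : ℕ → ℕ → ((ℕ → ℕ → Cb) → Bool) → Bool)
    (v R C S s : ℕ) (c : ℕ → Bool) : cenS row nl cbK v R C S s c = cenSF row nl cbK v R C S s c := by
  unfold cenS
  simp only [frS_eq]
  rw [entsK_eq]
  rfl

/-! ## Soundness -/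

theorem testBit_selS {S p q k : ℕ} (hk : k < 8) :
    (selS S p q).testBit k = S.testBit (8 * (12 * p + q) + k) := by
  show ((S >>> (8 * (12 * p + q))) &&& 255).testBit k = _
  rw [show (255 : ℕ) = 2 ^ 8 - 1 by norm_num, Nat.and_two_pow_sub_one_eq_mod, Nat.testBit_mod_two_pow,
    decide_eq_true hk, Bool.true_and, Nat.testBit_shiftRight]

theorem mem_cutS {M S Y : ℕ} : ∀ {n k : ℕ}, k < n → S.testBit k = true →
    Nat.land (Nat.shiftRight Y (Nat.mul 131072 k)) M ∈ cutS M S n Y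
  | 0, k, h, _ => absurd h (Nat.not_lt_zero k)
  | n + 1, k, h, hS => by
    rw [cutS_succ]
    rcases Nat.lt_succ_iff_lt_or_eq.1 h with h1 | h1
    · have h2 := mem_cutS (M := M) (Y := Y) h1 hS
      cases Nat.beq (Nat.land (Nat.shiftRight S n) 1) 1 with
      | false => exact h2
      | true => exact List.mem_cons_of_mem _ h2
    · subst h1
      have h3 : Nat.beq (Nat.land (Nat.shiftRight S k) 1) 1 = true := by
        rw [Nat.beq_eq]
        show (S >>> k) &&& 1 = 1
        rw [Nat.testBit_eq_decide_div_mod_eq, decide_eq_true_eq] at hS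
        rw [Nat.and_one_is_mod, Nat.shiftRight_eq_div_pow]
        exact hS
      rw [h3]
      exact List.mem_cons_self

/-- the lane number `i` of a group in the pair frame -/
theorem fld_letters {p q : Fin 13} (hpq : p < q) (hq : q < 12) {B : Fam'} {i X : ℕ} (hi : i < 512)
    (h : fld 2048 X i = cub 11 (Lay (moved (Equiv.swap p 11) B p))) :
    fld 2048 (runC KL (lenY (zl p.val q.val)) (wY (zl p.val q.val)) X) i =
      cub 11 (LYL (mapF (piA p q) B)) := by
  obtain ⟨h1, h2⟩ := wY_perm p q hpq hq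
  have h3 : fld 2048 (runC (2048 * 512) (lenY (zl p.val q.val)) (wY (zl p.val q.val)) X) i =
      cub 11 (mapF (Pool.Agent.Helper91.TY.wpc (Pool.Agent.Helper91.TY.prs
        (wY (zl p.val q.val)) (lenY (zl p.val q.val)))) (Lay (moved (Equiv.swap p 11) B p))) :=
    fld_runC (n := 11) (N := 512) (by norm_num) h1 hi h
  rw [← KL_eq, Equiv.ext h2] at h3
  rw [LYL_piA hpq hq]
  exact h3

/-- a pair of groups is done as far as `S` says -/
def PairGoodS (r m S : ℕ) (a b : Ent) : Prop := ∀ p q : Fin 13, p < q → q < 12 → ∀ B,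
  CA r m p q B → a.p = p.val → Good b B q → ∀ i < 64 * a.n, i < 512 →
    S.testBit (8 * (12 * p.val + q.val) + i / 64) = true →
      fld 2048 a.Y i = cub 11 (Lay (moved (Equiv.swap p 11) B p)) → False

theorem acc_pairS {cbK : ℕ → ℕ → ((ℕ → ℕ → Cb) → Bool) → Bool} {r m S : ℕ} {a b : Ent}
    {p q : Fin 13} (ha : a.p = p.val) (hb : b.p = q.val) (hpq : p < q) (hq : q < 12)
    (hmp : m.testBit p.val = true)
    (hcb : CbLaw cbK (mapF (piA p q) (fam 12 4 r)) (hm m p.val q.val)) :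
    Acc (PairGoodS r m S a b)
      (pairS cbK (2 ^ 131072 - 1) (cub 12 (LayC (fam 12 4 r))) m (selS S p.val q.val) a b) := by
  intro s c h
  unfold pairS at h
  simp only [frS_eq, runD_eq] at h
  rw [ha, hb] at h
  obtain ⟨cb, h1, h2⟩ := hcb _ (by
    rw [layC_mapF (piA_12 p q hpq hq)]
    exact root_letters hpq hq _) _ h
  obtain ⟨h3, h4⟩ := eng_acc h2 _ _ s c h1
  refine ⟨?_, h4⟩
  intro p' q' _ _ B hB hya hzb i hi hi2 hS hYi
  obtain rfl : p = p' := Fin.ext (ha.symm.trans hya)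
  obtain rfl : q = q' := Fin.ext (hb.symm.trans hzb.pos)
  have hF := hB.frame hpq hq (hm_law hpq hq hmp)
  have h5 := fld_letters hpq hq hi2 hYi
  have hk : i / 64 < a.n := Nat.div_lt_of_lt_mul hi
  have h6 := mem_cutS (M := 2 ^ 131072 - 1) (S := selS S p.val q.val)
    (Y := runC KL (lenY (zl p.val q.val)) (wY (zl p.val q.val)) a.Y) hk
    (by rw [testBit_selS (by omega)]; exact hS)
  have e : Nat.land (Nat.shiftRight (runC KL (lenY (zl p.val q.val)) (wY (zl p.val q.val)) a.Y)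
      (Nat.mul 131072 (i / 64))) (2 ^ 131072 - 1) =
      cutK 64 (runC KL (lenY (zl p.val q.val)) (wY (zl p.val q.val)) a.Y) (i / 64) := by
    have e64 : 2048 * 64 = 131072 := by norm_num
    show (_ >>> (131072 * (i / 64))) &&& (2 ^ 131072 - 1) =
      (_ >>> ((2048 * 64) * (i / 64))) % 2 ^ (2048 * 64)
    rw [Nat.and_two_pow_sub_one_eq_mod, e64]
  rw [e] at h6
  have h7 : fld 2048 (cutK 64 (runC KL (lenY (zl p.val q.val)) (wY (zl p.val q.val)) a.Y) (i / 64))
      (i % 64) = cub 11 (LYL (mapF (piA p q) B)) := by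
    rw [fld_cutK (Nat.mod_lt _ (by norm_num)), Nat.div_add_mod]
    exact h5
  obtain ⟨Z, hZ, j, hj, hZj⟩ := inL_cutL (lzl_letters hpq hq hzb.le hzb.inX)
  refine h3 _ h6 Z hZ (i % 64) (Nat.mod_lt _ (by norm_num)) j hj ?_ _ hF h7.symm hZj.symm
  rw [h7, hZj]
  exact agree_lay _

/-- what a part of a centre proves -/
def PartA (row : ℕ → List ℕ) (nl : ℕ → ℕ) (v r C S : ℕ) : Prop :=
  maskF (Nat.land C 15) (C >>> 4) = 4095 ^^^ (v >>> 495) ∧
    (entsF row nl (Nat.land C 15) (C >>> 4)).Pairwise fun a b =>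
      a.p ≠ b.p → PairGoodS r (4095 ^^^ (v >>> 495)) S a b

theorem acc_cenS {row : ℕ → List ℕ} {nl typ : ℕ → ℕ} {NT : ℕ}
    {cbK : ℕ → ℕ → ((ℕ → ℕ → Cb) → Bool) → Bool} {v r C S : ℕ}
    (hrecs : recsChk typ NT (cub 12 (fam 12 4 r)) (Nat.land C 15) 0 (C >>> 4) = true)
    (hcb : ∀ p q : Fin 13, p < q → q < 12 →
      CbLaw cbK (mapF (piA p q) (fam 12 4 r)) (hm (4095 ^^^ (v >>> 495)) p.val q.val)) :
    Acc (PartA row nl v r C S) (cenS row nl cbK v (cub 12 (LayC (fam 12 4 r))) C S) := by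
  intro s c h
  rw [cenS_eq] at h
  unfold cenSF at h
  obtain ⟨h1, h2⟩ := ite0_and h
  have hm1 : maskF (Nat.land C 15) (C >>> 4) = 4095 ^^^ (v >>> 495) := Nat.eq_of_beq_eq_true h1
  rw [hm1] at h2
  obtain ⟨hs, hb⟩ := sorted_ents (row := row) (nl := nl) hrecs
  rw [hm1] at hb
  obtain ⟨h3, h4⟩ := acc_pairs
    (P := fun a b => a.p ≠ b.p → PairGoodS r (4095 ^^^ (v >>> 495)) S a b)
    (f := prP cbK (2 ^ 131072 - 1) (cub 12 (LayC (fam 12 4 r))) (4095 ^^^ (v >>> 495)) S) hs
    (fun a ha b hb' hab => by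
      intro s c h5
      unfold prP at h5
      cases h6 : Nat.beq a.p b.p with
      | true =>
        rw [h6, ite0_true] at h5
        exact ⟨fun h7 => absurd (Nat.eq_of_beq_eq_true h6) h7, s, h5⟩
      | false =>
        rw [h6, ite0_false, frS_eq] at h5
        have h7 : a.p ≠ b.p := fun h8 => by
          rw [h8] at h6
          have := Nat.beq_refl b.p
          rw [this] at h6
          exact Bool.noConfusion h6
        obtain ⟨-, ha11, hab'⟩ := hb a ha
        obtain ⟨-, hb11, -⟩ := hb b hb'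
        have hpq : (⟨a.p, by omega⟩ : Fin 13) < ⟨b.p, by omega⟩ := Fin.mk_lt_mk.2 (by omega)
        have hq12 : (⟨b.p, by omega⟩ : Fin 13) < 12 := by
          show b.p < 12
          omega
        cases h10 : Nat.beq (selS S a.p b.p) 0 with
        | true =>
          rw [h10, ite0_true] at h5
          refine ⟨fun _ => ?_, s, h5⟩
          intro p q _ _ B _ hp hq i _ hi hSi _
          have h11 : selS S a.p b.p = 0 := Nat.eq_of_beq_eq_true h10
          have h12 := testBit_selS (S := S) (p := a.p) (q := b.p) (k := i / 64) (by omega)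
          rw [h11, Nat.zero_testBit, hp, hq.pos, hSi] at h12
          exact Bool.noConfusion h12
        | false =>
          rw [h10, ite0_false] at h5
          obtain ⟨h8, h9⟩ := acc_pairS (S := S) (a := a) (b := b) (p := ⟨a.p, by omega⟩)
            (q := ⟨b.p, by omega⟩) rfl rfl hpq hq12 hab' (hcb _ _ hpq hq12) s c h5
          exact ⟨fun _ => h8, h9⟩) s c h2
  exact ⟨⟨hm1, h3⟩, h4⟩

/-- everything is selected -/
def coverS (Ss : List ℕ) : Bool :=
  Nat.beq (Nat.land (Ss.foldr Nat.lor 0) (2 ^ 1152 - 1)) (2 ^ 1152 - 1)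

theorem coverS_get {Ss : List ℕ} (h : coverS Ss = true) {i : ℕ} (hi : i < 1152) :
    ∃ S ∈ Ss, S.testBit i = true := by
  have h1 : (Ss.foldr Nat.lor 0) &&& (2 ^ 1152 - 1) = 2 ^ 1152 - 1 := Nat.eq_of_beq_eq_true h
  have h2 : (Ss.foldr Nat.lor 0).testBit i = true := by
    have h3 := congrArg (fun x => Nat.testBit x i) h1
    simp only [Nat.testBit_and, Nat.testBit_two_pow_sub_one, hi, decide_true, Bool.and_true] at h3
    exact h3
  clear h h1
  induction Ss with
  | nil =>
    rw [List.foldr_nil, Nat.zero_testBit] at h2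
    exact absurd h2 Bool.false_ne_true
  | cons S Ss ih =>
    rw [List.foldr_cons] at h2
    have h3 : (S ||| Ss.foldr Nat.lor 0).testBit i = true := h2
    rw [Nat.testBit_or, Bool.or_eq_true] at h3
    rcases h3 with h3 | h3
    · exact ⟨S, List.mem_cons_self, h3⟩
    · obtain ⟨T, hT, h4⟩ := ih h3
      exact ⟨T, List.mem_cons_of_mem _ hT, h4⟩

theorem pairwise_all {α β : Type} {R : β → α → α → Prop} {l : List α} {L : List β}
    (h : ∀ S ∈ L, l.Pairwise (R S)) : l.Pairwise fun a b => ∀ S ∈ L, R S a b := by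
  induction l with
  | nil => exact List.Pairwise.nil
  | cons a l ih =>
    rw [List.pairwise_cons]
    refine ⟨fun b hb S hS => (List.pairwise_cons.1 (h S hS)).1 b hb, ih fun S hS =>
      (List.pairwise_cons.1 (h S hS)).2⟩

/-- **a centre from its parts** -/
theorem cenA_of_parts {row : ℕ → List ℕ} {nl typ : ℕ → ℕ} {NT : ℕ}
    (hrow : RowsOK typ nl row NT 6 (fun _ => True)) {v r C : ℕ}
    (hfm : ∀ B : Fam', OddCover B → link B 12 = fam 12 4 r → ∀ t : Fin 13, t < 12 →
      ((4095 ^^^ (v >>> 495)).testBit t.val = true ↔ 1 ≤ mm B 12 t))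
    (hrecs : recsChk typ NT (cub 12 (fam 12 4 r)) (Nat.land C 15) 0 (C >>> 4) = true)
    {Ss : List ℕ} (hS : coverS Ss = true) (h : ∀ S ∈ Ss, PartA row nl v r C S) : CenA r := by
  obtain ⟨S0, hS0, -⟩ := coverS_get hS (i := 0) (by norm_num)
  have hm1 := (h S0 hS0).1
  have h3 := pairwise_all fun S hS' => (h S hS').2
  refine cenA_of_pairs hfm fun p q hpq hq hp1 hq1 B hB => ?_
  rw [← hm1] at hp1 hq1
  have hBo := hB.best.odd
  obtain ⟨a, b, ha, hb', hPP⟩ := ents_pair (P := fun _ => True) (fun _ _ _ => trivial) hrow hpq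
    (B := B) (r := r) ⟨hBo, hB.root, hB.p6, trivial⟩ ⟨hBo, hB.root, hB.q6, trivial⟩ hrecs hp1
    hq1 h3
  obtain ⟨i, hi, hYi⟩ := ha.inY
  have hi2 : i < 512 := lt_of_lt_of_le hi ha.le
  have hq' : q.val < 12 := hq
  have hpq' : p.val < q.val := hpq
  obtain ⟨S, hS1, hS2⟩ := coverS_get hS (i := 8 * (12 * p.val + q.val) + i / 64) (by omega)
  refine hPP S hS1 ?_ p q hpq hq B hB ha.pos hb' i hi hi2 hS2 hYi
  rw [ha.pos, hb'.pos]
  exact ne_of_lt hpq

end Pool.Agent.Helper38.TY
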