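import Mathlib
import Pool.Agent.Helper38.TY.CenPart
import Pool.Agent.Helper52.TY.RootA
import Pool.Agent.Helper79.CV.FastCub

/-!
MP_8ee768_co, project TH-Y', stage A: the checks of the centres and of their parts.

All data functions are parameters: `tv` class values, `typ` pair types with rows `row`, `nl`, `cbK` the
callback builder.

* `oneA .. j C S`: the centre `j` with records `C` and stream `S`; `partA .. j C sel S`: the part `sel`;
* `chkA .. lo [(C, S), ..]`: the centres `lo, lo + 1, ..`;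
* `SegA tv a b`: the centres `a ≤ j < b` are done; `chkA_seg`, `SegA.app`, `segA_of_parts`, `stA_of_seg`.
-/

set_option autoImplicit false
set_option maxRecDepth 100000
set_option exponentiation.threshold 2000000

namespace Pool.Agent.Helper38.TY

open Finset
open Pool.Agent.Helper89.CV (OddCover ofMask)
open Pool.Agent.Helper97.CV
open Pool.Agent.Helper79.CV
open Pool.Agent.Helper33.CV
open Pool.Agent.Helper82.TY (Best)
open Pool.Agent.Helper63.TY (Cb)
open Pool.Agent.Helper91.TY (RowsOK recsChk ite0_and)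
open Pool.Agent.Helper52.TY
open Pool.Agent.Helper16.TY (Good)

/-- value and records of a centre -/
noncomputable def preA (tv typ : ℕ → ℕ) (NT j C : ℕ) (k : ℕ → Bool) : Bool :=
  frS C (tv j) fun v => frS C (cub4 (Nat.mod v c495)) fun R =>
    ite0 (recsChk typ NT R (Nat.land C 15) 0 (Nat.shiftRight C 4)) false (k v)

theorem preA_split {tv typ : ℕ → ℕ} {NT j C : ℕ} {k : ℕ → Bool}
    (h : preA tv typ NT j C k = true) :
    recsChk typ NT (cub 12 (fam 12 4 (tv j % 2 ^ 495))) (Nat.land C 15) 0 (C >>> 4) = true ∧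
    k (tv j) = true := by
  unfold preA at h
  simp only [frS_eq] at h
  have e : Nat.mod (tv j) c495 = tv j % 2 ^ 495 := by
    rw [c495_eq]
    rfl
  rw [e, cub4_eq (Nat.mod_lt _ (Nat.two_pow_pos 495))] at h
  exact ite0_and h

/-- the centre `j` -/
noncomputable def oneA (tv typ : ℕ → ℕ) (NT : ℕ) (row : ℕ → List ℕ) (nl : ℕ → ℕ)
    (cbK : ℕ → ℕ → ((ℕ → ℕ → Cb) → Bool) → Bool) (j C S : ℕ) : Bool :=
  preA tv typ NT j C fun v => frS C (rootR v) fun R1 =>
    cenK row nl cbK v R1 C S fun _ => true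

/-- the part `sel` of the centre `j` -/
noncomputable def partA (tv typ : ℕ → ℕ) (NT : ℕ) (row : ℕ → List ℕ) (nl : ℕ → ℕ)
    (cbK : ℕ → ℕ → ((ℕ → ℕ → Cb) → Bool) → Bool) (j C sel S : ℕ) : Bool :=
  preA tv typ NT j C fun v => frS C (rootR v) fun R1 =>
    cenS row nl cbK v R1 C sel S fun _ => true

/-- the laws of the data of stage A -/
structure LawA (tv typ : ℕ → ℕ) (NT : ℕ) (row : ℕ → List ℕ) (nl : ℕ → ℕ)
    (cbK : ℕ → ℕ → ((ℕ → ℕ → Cb) → Bool) → Bool) : Prop where
  good : ∀ j, Good 6 (tv j)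
  rows : RowsOK typ nl row NT 6 (fun _ => True)
  cb : ∀ v, Good 6 v → ∀ p q : Fin 13, p < q → q < 12 →
    CbLaw cbK (mapF (piA p q) (fam 12 4 (v % 2 ^ 495))) (hm (4095 ^^^ (v >>> 495)) p.val q.val)

section A

variable {tv typ : ℕ → ℕ} {NT : ℕ} {row : ℕ → List ℕ} {nl : ℕ → ℕ}
  {cbK : ℕ → ℕ → ((ℕ → ℕ → Cb) → Bool) → Bool}

/-- **one centre** -/
theorem oneA_sound (h : LawA tv typ NT row nl cbK) {j C S : ℕ}
    (hb : oneA tv typ NT row nl cbK j C S = true) : CenA (tv j % 2 ^ 495) := by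
  by_cases hocc : ∃ B : Fam', OddCover B ∧ link B 12 = fam 12 4 (tv j % 2 ^ 495)
  swap
  · exact fun B p q hB hr => absurd ⟨B, hB.odd, hr⟩ hocc
  obtain ⟨B, hB, hr⟩ := hocc
  obtain ⟨h1, h2⟩ := preA_split hb
  rw [frS_eq, rootR_eq (h.good j) hB hr] at h2
  exact (acc_cenK h.rows (nbr_of_good (h.good j)) h1 (h.cb _ (h.good j)) S _ h2).1

/-- **one part**, together with the check of the records; vacuous if the class does not occur -/
def PartOK (tv typ : ℕ → ℕ) (NT : ℕ) (row : ℕ → List ℕ) (nl : ℕ → ℕ) (j C sel : ℕ) : Prop :=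
  (∃ B : Fam', OddCover B ∧ link B 12 = fam 12 4 (tv j % 2 ^ 495)) →
    recsChk typ NT (cub 12 (fam 12 4 (tv j % 2 ^ 495))) (Nat.land C 15) 0 (C >>> 4) = true ∧
      PartA row nl (tv j) (tv j % 2 ^ 495) C sel

theorem partA_sound (h : LawA tv typ NT row nl cbK) {j C sel S : ℕ}
    (hb : partA tv typ NT row nl cbK j C sel S = true) : PartOK tv typ NT row nl j C sel := by
  rintro ⟨B, hB, hr⟩
  obtain ⟨h1, h2⟩ := preA_split hb
  rw [frS_eq, rootR_eq (h.good j) hB hr] at h2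
  exact ⟨h1, (acc_cenS (typ := typ) (NT := NT) h1 (h.cb _ (h.good j)) S _ h2).1⟩

/-- a centre from its parts -/
theorem cenA_of_partOK (h : LawA tv typ NT row nl cbK) {j C : ℕ} {Ss : List ℕ}
    (hS : coverS Ss = true) (hp : ∀ sel ∈ Ss, PartOK tv typ NT row nl j C sel) :
    CenA (tv j % 2 ^ 495) := by
  by_cases hocc : ∃ B : Fam', OddCover B ∧ link B 12 = fam 12 4 (tv j % 2 ^ 495)
  swap
  · exact fun B p q hB hr => absurd ⟨B, hB.odd, hr⟩ hocc
  obtain ⟨S0, hS0, -⟩ := coverS_get hS (i := 0) (by norm_num)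
  exact cenA_of_parts h.rows (nbr_of_good (h.good j)) (hp S0 hS0 hocc).1 hS
    fun S hS' => (hp S hS' hocc).2

/-! ### lists of centres -/

/-- the centres `lo, lo + 1, ..` with records and streams -/
noncomputable def chkA (tv typ : ℕ → ℕ) (NT : ℕ) (row : ℕ → List ℕ) (nl : ℕ → ℕ)
    (cbK : ℕ → ℕ → ((ℕ → ℕ → Cb) → Bool) → Bool) (lo : ℕ) (l : List (ℕ × ℕ)) : Bool :=
  @List.rec (ℕ × ℕ) (fun _ => ℕ → Bool) (fun _ => true)
    (fun p _ ih j => ite0 (oneA tv typ NT row nl cbK j p.1 p.2) false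
      (frS j (Nat.succ j) fun j' => ih j')) l lo

theorem chkA_nil (lo : ℕ) : chkA tv typ NT row nl cbK lo [] = true := rfl

theorem chkA_cons (lo : ℕ) (p : ℕ × ℕ) (l : List (ℕ × ℕ)) :
    chkA tv typ NT row nl cbK lo (p :: l) = ite0 (oneA tv typ NT row nl cbK lo p.1 p.2) false
      (chkA tv typ NT row nl cbK (lo + 1) l) := by
  show ite0 (oneA tv typ NT row nl cbK lo p.1 p.2) false
    (frS lo (Nat.succ lo) fun j' => chkA tv typ NT row nl cbK j' l) = _
  rw [frS_eq]

end A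

/-- the centres `a ≤ j < b` are done -/
def SegA (tv : ℕ → ℕ) (a b : ℕ) : Prop := ∀ j, a ≤ j → j < b → CenA (tv j % 2 ^ 495)

theorem SegA.nil {tv : ℕ → ℕ} {a : ℕ} : SegA tv a a := fun _ h1 h2 => absurd (lt_of_lt_of_le h2 h1)
  (lt_irrefl _)

theorem SegA.one {tv : ℕ → ℕ} {j : ℕ} (h : CenA (tv j % 2 ^ 495)) : SegA tv j (j + 1) := by
  intro i h1 h2
  obtain rfl : i = j := by omega
  exact h

theorem SegA.app {tv : ℕ → ℕ} {a b c : ℕ} (h : SegA tv a b) (h' : SegA tv b c) : SegA tv a c := by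
  intro j h1 h2
  by_cases h3 : j < b
  · exact h j h1 h3
  · exact h' j (not_lt.1 h3) h2

section B

variable {tv typ : ℕ → ℕ} {NT : ℕ} {row : ℕ → List ℕ} {nl : ℕ → ℕ}
  {cbK : ℕ → ℕ → ((ℕ → ℕ → Cb) → Bool) → Bool}

/-- **a list of centres**, `hi = lo + number of the centres` -/
theorem chkA_seg (h : LawA tv typ NT row nl cbK) : ∀ {l : List (ℕ × ℕ)} {lo hi : ℕ},
    hi = lo + l.length → chkA tv typ NT row nl cbK lo l = true → SegA tv lo hi
  | [], lo, hi, e, _ => by
    rw [e, List.length_nil, Nat.add_zero]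
    exact SegA.nil
  | p :: l, lo, hi, e, hb => by
    rw [chkA_cons] at hb
    obtain ⟨h1, h2⟩ := ite0_and hb
    rw [List.length_cons] at e
    exact (SegA.one (oneA_sound h h1)).app (chkA_seg h (by omega) h2)

/-- the parts of the centre `j` in the list are done -/
def PartsA (tv typ : ℕ → ℕ) (NT : ℕ) (row : ℕ → List ℕ) (nl : ℕ → ℕ) (j C : ℕ) (Ss : List ℕ) :
    Prop := ∀ sel ∈ Ss, PartOK tv typ NT row nl j C sel

theorem PartsA.nil {j C : ℕ} : PartsA tv typ NT row nl j C [] :=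
  fun _ h => absurd h List.not_mem_nil

theorem PartsA.cons {j C sel : ℕ} {Ss : List ℕ} (h : PartOK tv typ NT row nl j C sel)
    (h' : PartsA tv typ NT row nl j C Ss) : PartsA tv typ NT row nl j C (sel :: Ss) := by
  intro s hs
  rcases List.mem_cons.1 hs with rfl | h1
  · exact h
  · exact h' s h1

/-- **a centre in parts** -/
theorem segA_of_parts (h : LawA tv typ NT row nl cbK) {j C : ℕ} {Ss : List ℕ}
    (hS : coverS Ss = true) (hp : PartsA tv typ NT row nl j C Ss) : SegA tv j (j + 1) :=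
  SegA.one (cenA_of_partOK h hS hp)

end B

/-- all centres of a list of representatives -/
theorem cenA_all {tv : ℕ → ℕ} {nc : ℕ} (h : SegA tv 0 nc) :
    ∀ r ∈ (List.range nc).map (fun j => tv j % 2 ^ 495), CenA r := by
  intro r hr
  obtain ⟨j, hj, rfl⟩ := List.mem_map.1 hr
  exact h j (Nat.zero_le _) (List.mem_range.1 hj)

end Pool.Agent.Helper38.TY
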