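import Pool.Agent.Helper60.TY.Star5

/-!
MP_8ee768_co, project TH-Y': the join engine of the stages A, E and B1a (64 lanes per chunk).
One name, so that it can be exchanged in one place. Order inside a pair of chunks: `64 i + j` ascending, `i` =
lane of the first chunk, `j` = lane of the second chunk.
-/

set_option autoImplicit false

namespace Pool.Agent.Helper38.TY

open Pool.Agent.Helper63.SIMD (fld)
open Pool.Agent.Helper63.TY

/-- the engine -/
def eng (cb : ℕ → ℕ → Cb) (ys zs : List ℕ) : Cb := Pool.Agent.Helper60.TY.star5 cb ys zs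

/-- soundness of the engine -/
theorem eng_acc {D : ℕ → ℕ → Prop} {cb : ℕ → ℕ → Cb}
    (hcb : ∀ u v, Acc (Agree u v → D u v) (cb u v)) (ys zs : List ℕ) :
    Acc (∀ Y ∈ ys, ∀ Z ∈ zs, ∀ i < 64, ∀ j < 64, Agree (fld 2048 Y i) (fld 2048 Z j) →
      D (fld 2048 Y i) (fld 2048 Z j)) (eng cb ys zs) :=
  Pool.Agent.Helper60.TY.star5_acc hcb ys zs

end Pool.Agent.Helper38.TY
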