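import Mathlib
import Pool.Agent.Helper38.TY.ChkA
import Pool.Agent.Helper38.TY.CbFast
import Pool.Agent.Helper52.TB.RowX
import Pool.Agent.Helper7.TB.Typ
import Pool.Agent.Helper16.TY.Tab.All

/-!
MP_8ee768_co, project TH-Y', stage A: the instance.

* `chA lo [(C, S), ..]` and `ptA j C sel S`: the checks, to be proved by `decide +kernel`;
* `sA`, `sN`, `sP`, `SA.app`: segments; `pN`, `pC`: parts. Everything is relative to the laws `LwA`.
-/

set_option autoImplicit false
set_option maxRecDepth 100000
set_option exponentiation.threshold 2000000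

namespace Pool.Agent.Helper38.TY

open Pool.Agent.Helper52.TB (rowX)
open Pool.Agent.Helper7.TB (typ nl)
open Pool.Agent.Helper16.TY.Tab (tv)

/-- the laws of the instance -/
def LwA : Prop := LawA tv typ 5074 rowX nl cbF

/-- the centres `lo, lo + 1, ..` -/
noncomputable def chA (lo : ℕ) (l : List (ℕ × ℕ)) : Bool := chkA tv typ 5074 rowX nl cbF lo l

/-- the part `sel` of the centre `j` -/
noncomputable def ptA (j C sel S : ℕ) : Bool := partA tv typ 5074 rowX nl cbF j C sel S

/-- the centres `a ≤ j < b` are done, if the laws hold -/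
def SA (a b : ℕ) : Prop := LwA → SegA tv a b

/-- the parts of the list are done, if the laws hold -/
def PA (j C : ℕ) (Ss : List ℕ) : Prop := LwA → PartsA tv typ 5074 rowX nl j C Ss

/-- a list of centres -/
theorem sA {lo hi : ℕ} {l : List (ℕ × ℕ)} (e : hi = lo + l.length) (h : chA lo l = true) :
    SA lo hi := fun hL => chkA_seg hL e h

theorem sN {a : ℕ} : SA a a := fun _ => SegA.nil

theorem SA.app {a b c : ℕ} (h : SA a b) (h' : SA b c) : SA a c := fun hL => (h hL).app (h' hL)

theorem pN {j C : ℕ} : PA j C [] := fun _ => PartsA.nil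

theorem pC {j C sel S : ℕ} {Ss : List ℕ} (h : ptA j C sel S = true) (h' : PA j C Ss) :
    PA j C (sel :: Ss) := fun hL => (h' hL).cons (partA_sound hL h)

/-- a centre in parts -/
theorem sP {j C : ℕ} {Ss : List ℕ} (hS : coverS Ss = true) (h : PA j C Ss) : SA j (j + 1) :=
  fun hL => segA_of_parts hL hS (h hL)

end Pool.Agent.Helper38.TY
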