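import Mathlib
import Pool.Agent.Helper38.TY.InstA
import Pool.Agent.Helper52.TY.WordLawA
import Pool.Agent.Helper82.TY.RowsX
import Pool.Agent.Helper16.TY.RunFin

/-!
MP_8ee768_co, project TH-Y', stage A: the laws of the instance and the end of the stage.
-/

set_option autoImplicit false
set_option maxRecDepth 100000
set_option exponentiation.threshold 2000000

namespace Pool.Agent.Helper38.TY

open Pool.Agent.Helper97.CV
open Pool.Agent.Helper79.CV
open Pool.Agent.Helper52.TY
open Pool.Agent.Helper52.TB (rowX)
open Pool.Agent.Helper7.TB (typ nl lane cls)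
open Pool.Agent.Helper7.TY (FlagL IsoL LSet)
open Pool.Agent.Helper82.TY (lanesL rowsOK_of_flags)
open Pool.Agent.Helper16.TY.Tab (tv tv_good)
open Pool.Agent.Helper16.TY (reps)

/-- **the laws of the instance** -/
theorem lwA (hR : RootOK 6 (fun _ => True) reps) (hF : FlagL reps 5074 typ lanesL)
    (hI : IsoL 5074 typ lanesL) : LwA :=
  ⟨tv_good, rowsOK_of_flags (le_refl 6) hR hF hI, fun _ _ _ _ _ _ => cbFLaw _ _⟩

/-- **STAGE A**, from the segments of the generated modules -/
theorem hA_of (hR : RootOK 6 (fun _ => True) reps) (hF : FlagL reps 5074 typ lanesL)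
    (hI : IsoL 5074 typ lanesL) (h : SA 0 24746) : ∀ r ∈ reps, CenA r :=
  cenA_all (h (lwA hR hF hI))

end Pool.Agent.Helper38.TY
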